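import Pool.Agent.W275.FML.All

/-!
# MP_f5d5f4_nt: 100% of the elliptic curves have no congruence with smaller or slightly larger curves

For 100% of the elliptic curves `E` over `ℚ`, ordered by height: no elliptic curve `E'` of height at
most `H(E)^(1+δ)` which is not a quadratic twist of `E` has `E'[n]` isomorphic to `E[n]`, for any
`n ≥ 2`.  Here `11 δ < 1`.  There is no condition on `n` or on the primes dividing it.

Proof.  Let `q ≥ 5` be a prime which divides `D = 4A³ + 27B²` exactly once, `l` a prime, and suppose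
`E[l] ≅ E'[l]` and `q ∤ D'`.  If `l ≠ q`, the inertia group at `q` acts trivially on `E[l]`; over a field
in which `q` is unramified no point reduces to the node of `E` modulo `q`, so `E[l]` has at most `l`
points, but it has at least `l²`.  If `l = q`, let `K` be the field of `E[q]`, which is that of `E'[q]`,
with a place above `q`, `G` its inertia group; some power of a uniformizer is `q` times a unit.
Ramification at `q` of the unit root part of `E'[q]` and of the points of `E[q]` in the kernel of the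
reduction, and the fact that a point of `E[q]` reducing to the node needs a `q`-th root of `q` times a
unit, contradict each other (the case `l = q` in the file `W275/FML`).  So `q ∣ D'`.  For almost all
curves the product of these `q` is almost as large as `D` (sieve for square divisors of `4A³ + 27B²`), so
that `m D' = t D` for small integers `m`, `t`.  For given `m, t, A, A'` this is the equation
`u² - d v² = N` for `B, B'`, which has few solutions unless `N = 0`, when `E'` is a twist of `E`.  So
only few `E` have such a companion.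

Parts were proved by many helpers (subtasks FM and FML of helper275, directories `W*/FM`, `W*/FML`);
the library `H901R3.MS` of places is used.
-/

set_option autoImplicit false

open WeierstrassCurve Filter Topology
open scoped Classical

namespace Pool.Agent.Results.MP_f5d5f4_nt.EveryLevel

/-- The curve `y² = x³ + Ax + B` over `ℚ`. -/
def curve (A B : ℤ) : WeierstrassCurve ℚ := ⟨0, 0, 0, A, B⟩

/-- The group of its points over the algebraic closure of `ℚ`. -/
abbrev Points (A B : ℤ) : Type := ((curve A B).baseChange (AlgebraicClosure ℚ)).toAffine.Point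

/-- The action of an automorphism `σ` of the algebraic closure on the points. -/
noncomputable def galois (A B : ℤ) (σ : AlgebraicClosure ℚ ≃ₐ[ℚ] AlgebraicClosure ℚ) :
    Points A B →+ Points A B :=
  WeierstrassCurve.Affine.Point.map
    (σ : AlgebraicClosure ℚ →ₐ[ℚ] AlgebraicClosure ℚ)

/-- The `n`-torsion of `y² = x³ + Ax + B` and that of `y² = x³ + A'x + B'` are isomorphic as Galois
modules: some map between the groups of points restricts to a bijective additive map of the
`n`-torsion which commutes with the Galois group. -/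
def Congruent (n : ℕ) (A B A' B' : ℤ) : Prop :=
  ∃ f : Points A B → Points A' B', (∀ P Q, n • P = 0 → n • Q = 0 → f (P + Q) = f P + f Q) ∧
    Set.BijOn f {P | n • P = 0} {Q | n • Q = 0} ∧
    ∀ (σ : AlgebraicClosure ℚ ≃ₐ[ℚ] AlgebraicClosure ℚ) (P : Points A B), n • P = 0 →
      f (galois A B σ P) = galois A' B' σ (f P)

/-- The equations with `|A| ≤ T²` and `|B| ≤ T³`. -/
def Box (T : ℕ) : Set (ℤ × ℤ) := {p | |p.1| ≤ (T : ℤ) ^ 2 ∧ |p.2| ≤ (T : ℤ) ^ 3}

/-- The discriminant, up to the factor `-16`. -/
def disc (A B : ℤ) : ℤ := 4 * A ^ 3 + 27 * B ^ 2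

/-- The height of `y² = x³ + Ax + B`. -/
def height (A B : ℤ) : ℤ := max (4 * |A| ^ 3) (27 * B ^ 2)

/-- `y² = x³ + A'x + B'` is a quadratic twist of `y² = x³ + Ax + B` (or isomorphic to it) over `ℚ`. -/
def IsTwist (A B A' B' : ℤ) : Prop :=
  ∃ δ : ℚ, δ ≠ 0 ∧ (A' : ℚ) = δ ^ 2 * A ∧ (B' : ℚ) = δ ^ 3 * B

/-- `E : y² = x³ + Ax + B` has no congruence, modulo any `n ≥ 2`, with a curve `E'` of height at most
`H(E)^(1+δ)`, except twists. -/
def NoCompanion (δ : ℝ) (A B : ℤ) : Prop :=
  ∀ A' B' : ℤ, disc A' B' ≠ 0 → ¬ IsTwist A B A' B' →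
    (height A' B' : ℝ) ≤ (height A B : ℝ) ^ (1 + δ) → ∀ n : ℕ, 2 ≤ n → ¬ Congruent n A B A' B'

/-- **Frey-Mazur for 100% of the curves, against all smaller and slightly larger curves, at every
level.**  Let `0 < δ < 1/11`.  The proportion of the pairs `(A, B)` in the box `|A| ≤ T²`, `|B| ≤ T³`
for which `y² = x³ + Ax + B` is an elliptic curve and `NoCompanion δ A B` holds tends to `1` as
`T → ∞`. -/
theorem result (δ : ℝ) (h₀ : 0 < δ) (h : 11 * δ < 1) :
    Tendsto (fun T : ℕ =>
      (({p | p ∈ Box T ∧ disc p.1 p.2 ≠ 0 ∧ NoCompanion δ p.1 p.2} : Set (ℤ × ℤ)).ncard : ℝ) /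
      ((Box T).ncard : ℝ)) atTop (𝓝 1) := by
  have h' := Pool.Agent.W275.FM.lim_one
    {p | ∃ (A' B' : ℤ) (n : ℕ), Pool.Agent.W275.FM.dsc A' B' ≠ 0 ∧
      ¬ Pool.Agent.W275.FM.Twist p.1 p.2 A' B' ∧
      (Pool.Agent.W275.FM.hgt A' B' : ℝ) ≤ (Pool.Agent.W275.FM.hgt p.1 p.2 : ℝ) ^ (1 + δ) ∧
      2 ≤ n ∧ Pool.Agent.W275.FM.TorIso n p.1 p.2 A' B'}
    (fun ε hε => Pool.Agent.W275.FML.thm_T3 δ ε h₀ h hε)
  refine h'.congr fun T => ?_
  congr 2
  congr 1
  ext p
  constructor
  · rintro ⟨g1, g2, g3⟩
    exact ⟨g1, g2, fun A' B' k1 k2 k3 n k4 k5 => g3 ⟨A', B', n, k1, k2, k3, k4, k5⟩⟩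
  · rintro ⟨g1, g2, g3⟩
    exact ⟨g1, g2, fun ⟨A', B', n, k1, k2, k3, k4, k5⟩ => g3 A' B' k1 k2 k3 n k4 k5⟩

end Pool.Agent.Results.MP_f5d5f4_nt.EveryLevel
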